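import Pool.Agent.U554.TD.Cmp

/-!
# The motivic Tate conjecture, dimension by dimension, and the cubics `T(x, y, z) = 1`

Let `k ⊂ ℂ` be a finitely generated field and `ℓ` a prime.

* `𝓢` is the semisimple abelian category of the motives over `k` of weight `0` (of André, or for absolute
  Hodge cycles), and `O b m X = gr^W_0 H_{m + 2 b}(X)(-b)` the pure part of weight `0` of the Borel-Moore homology
  of a separated scheme `X` of finite type over `k`. If `X` is smooth and projective of pure dimension `n`,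
  then `O b 0 X = H^{2 i}(X)(i)`, `i = n - b`.
* `K = ℚ_ℓ`, `S.F M` is the `ℓ`-adic realization, `S.one M` the subspace generated by the motivic classes
  (`Hom(1, M)`, the invariants of `𝒢_k`), and `S.two M` the subspace of the Galois invariant classes (the
  invariants of `G_{ℓ, k}`).
* `S.Equal M`: these subspaces are equal. Q1 for `k`, `ℓ` implies `S.Equal M` for all motives `M`, and
  conversely if the groups `G_{ℓ, k}` are reductive (which follows, by Moonen).

Let `T` be a trilinear form in three blocks `x`, `y`, `z` of `a₁`, `a₂`, `a₃` variables.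

* `bilS T` is the closed subscheme `Z_T` of `𝔸^(a₂ + a₃)` given by the `a₁` bilinear equations
  `∂T/∂x_i (y, z) = 0`;
* `hypS T` is the smooth affine cubic hypersurface `Y_T : T(x, y, z) = 1` of dimension
  `n = a₁ + a₂ + a₃ - 1`; `O (n - j) 1 (hypS T)` is the pure part of weight `0` of `H^{2 j - 1}(Y_T)(j)`.

The known facts which are used are in `IsPureTheory`, `ArtinEqual` and `QuarticEqual`.
-/

set_option autoImplicit false

open CategoryTheory AlgebraicGeometry MvPolynomial Pool.Agent.Y116.UV Pool.Agent.U554.TW Pool.Agent.U554.TD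
  Pool.Agent.U483.GU

universe v u w

namespace Pool.Agent.Results.MP_bbcdf5_ag.CubicsByDimension

/-- **The motivic Tate conjecture, dimension by dimension, and the cubics `T(x, y, z) = 1`.**

(A) If two of the three blocks of `T` have at most `4` variables (the third one is arbitrary), or if one block
has at most `3` variables, then all Galois invariant classes are combinations of motivic classes in `gr^W_0 H_{2 b}(Z_T)(-b)` for all `b` and in
`gr^W_0 H^{2 j - 1}(Y_T)(j)` for all `j ≥ 1`.

(B) Let `d ≥ 1` and let `s` be any number. The following are equivalent, and all hold for `d = 1`: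

1. (`d = 1`, or) all Galois invariant classes in the `H^{2 i}(V)(i)` are combinations of motivic classes for all smooth projective `V` of dimension at most `d`;
2. the same in `gr^W_0 H_{2 b}(X)(-b)` for all `b` and all separated schemes `X` of finite type of dimension
   at most `d`;
3. the same for all `Z_T` with a block of at most `d + 2` variables, and for all closed subschemes of affine
   spaces which are given by equations with `t_1, …, t_c` terms, `∑ max(t_i - 2, 0) ≤ d`;
4. the same in `gr^W_0 H^{2 j - 1}(Y_T)(j)` for all `j ≥ 1` and all `T` with a block of at most `d + 2`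
   variables;
5. the same for all `T` with exactly `d + 2` variables `y` and all `j ≥ 1` with `j ≥ s`. -/
theorem result {K : Type w} [Field K] {𝓢 : Type u} [Category.{v} 𝓢] [Abelian 𝓢] (S : TwoSpaces K 𝓢)
    {k : Type} [Field k] [CharZero k] (O : ℤ → ℤ → Sch k → 𝓢) (hO : IsPureTheory O)
    (hA : ArtinEqual S O) (hq : QuarticEqual S O) :
    (∀ (a₁ a₂ a₃ : ℕ) (T : Fin a₁ → Fin a₂ → Fin a₃ → k),
      OneBlock 3 a₁ a₂ a₃ ∨ TwoBlocks 4 4 a₁ a₂ a₃ →
      EqualOn S O (bilS T) ∧ ∀ j : ℕ, 1 ≤ j → S.Equal (O (a₁ + a₂ + a₃ - 1 - j) 1 (hypS T))) ∧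
    ∀ (d : ℕ), 1 ≤ d → ∀ s : ℕ, List.TFAE [
      d = 1 ∨ ∀ V : Sch k, SmoothProjective V → topologicalKrullDim V.left ≤ d → EqualOn S O V,
      ∀ X : Sch k, FT True X → topologicalKrullDim X.left ≤ d → EqualOn S O X,
      (∀ (a₁ a₂ a₃ : ℕ) (T : Fin a₁ → Fin a₂ → Fin a₃ → k), OneBlock (d + 2) a₁ a₂ a₃ →
        EqualOn S O (bilS T)) ∧
      ∀ (n : ℕ) (G : Finset (MvPolynomial (Fin n) k)), ∑ g ∈ G, (g.support.card - 2) ≤ d →
        EqualOn S O (aff k (MvPolynomial (Fin n) k ⧸ Ideal.span (G : Set (MvPolynomial (Fin n) k)))),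
      ∀ (a₁ a₂ a₃ : ℕ) (T : Fin a₁ → Fin a₂ → Fin a₃ → k), OneBlock (d + 2) a₁ a₂ a₃ →
        ∀ j : ℕ, 1 ≤ j → S.Equal (O (a₁ + a₂ + a₃ - 1 - j) 1 (hypS T)),
      ∀ (a₁ a₃ : ℕ) (T : Fin a₁ → Fin (d + 2) → Fin a₃ → k), ∀ j : ℕ, s ≤ j → 1 ≤ j →
        S.Equal (O (a₁ + (d + 2) + a₃ - 1 - j) 1 (hypS T))] :=
  ⟨fun _ _ _ T ha => equal_small hO hA hq T ha, fun d hd s => equal_tfae hO hA d hd s⟩

end Pool.Agent.Results.MP_bbcdf5_ag.CubicsByDimension
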