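import Mathlib
import Pool.Agent.U273.AI.Art

/-!
# The motivic Tate conjecture and the endomorphisms over `ℚ`, at every prime number

Let `k` be a finitely generated field of characteristic zero, `M = ⊕ M_i ⊕ A` a motive over `k` (in the
category of André, or for absolute Hodge cycles), where `A` is an Artin motive and the `M_i` are
motives of rank `N_i` and weight `w_i` with a form `J_i`, alternating or symmetric (in the symmetric case
twisted to weight zero, of rank `5`, `7` or at least `8`).  Let `𝒢 ⊂ ∏ GL(M_i) × GL(A)` be the motivic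
Galois group of `M`, given by rational equations `Pol`, and suppose that it is as big as possible up to
finite groups: the group acts on the `M_i` by similitudes and contains all families of isometries of
determinant one.  The groups of components and the action on `A` are arbitrary.

`Γ` is the Galois group of `k` (or the fundamental group of a model `U`), and `s : G_ℚ → Γ` the
homomorphism given by a rational point of `U`; so `s` describes the fibre `M_s` of the motive at the
rational point (if `k = ℚ` then `s` is the identity).  The Frobenius polynomials of the fibre do not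
depend on `ℓ`; the Riemann hypothesis holds for them, and `p ^ c_i` times a Frobenius eigenvalue at `p`
is integral (so `M_i (-c_i)` is effective).

**Theorem.**  Suppose that at ONE suitable prime number `ℓ₀` the Zariski closure of the image of `G_ℚ` is
the whole motivic Galois group `𝒢`.  Then for EVERY prime number `ℓ` the following are equivalent:

* the motivic Tate conjecture for `M_s` at `ℓ`: the Zariski closure of the image of `G_ℚ` is `𝒢`, with all
  components;
* for every `i`, the endomorphisms of the `ℓ`-adic realization of `M_i` which commute with `G_ℚ` are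
  the scalars.

So for these motives all of the motivic Tate conjecture at `ℓ`, for all tensor constructions, is
reduced to Tate's conjecture for the endomorphisms of the single `M_i`, over `ℚ` itself.  The
semisimplicity of the representations is not assumed (it is proved), and nothing is assumed about
the relations between different `M_i`.

A prime number `ℓ₀` is suitable if it is odd, prime to `N_i - 1` for the symmetric forms of odd rank,
and, for the symmetric forms of even rank, prime to `(N_i - 2) (N_i - 4)` with an even exponent in the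
discriminant.

Idea of the proof.  The representation on `M_i` is semisimple at every `ℓ`: theorem on semisimplicity at
every prime number (library `Pool.Agent.R932.SQ`, starting file `EveryPrimeFromOnePrime` of
MP_b4801b_ag), applied to `M_i(-c_i)`; the Lie algebra of the image of the twist at `ℓ₀` contains the Lie
algebra of the form, because the latter is perfect.  If the commutant is scalar, then the
representation is absolutely irreducible (Burnside).  Then the commutants of open subgroups are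
scalars: otherwise the trace vanishes on a coset of an open subgroup, at `ℓ` and so by Chebotarev's
theorem at `ℓ₀`, which is impossible.  The library `Pool.Agent.R932.PO` gives the joint Lie algebra at `ℓ`,
and the components are controlled by determinants of Frobenius elements and by `A` (library
`Pool.Agent.R932.GR`).
-/

set_option autoImplicit false

namespace Pool.Agent.Results.MP_bbcdf5_ag.EndomorphismsOverQ

open Matrix Filter Topology NumberField IsDedekindDomain

noncomputable section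

/-- the absolute Galois group of `K`, with its profinite (Krull) topology -/
abbrev AbsoluteGaloisGroup (K : Type) [Field K] : Type := Gal(AlgebraicClosure K/K)

/-- `σ` is an (arithmetic) Frobenius element at the prime `v` of the number field `K`: for some prime
`Q` of the algebraic closure above `v` it acts on the residue field as `x ↦ x ^ N(v)` -/
def IsFrobenius {K : Type} [Field K] [NumberField K] (v : HeightOneSpectrum (𝓞 K))
    (σ : AbsoluteGaloisGroup K) : Prop :=
  ∃ Q : Ideal (𝓞 (AlgebraicClosure K)), Q.IsMaximal ∧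
    Q.comap (algebraMap (𝓞 K) (𝓞 (AlgebraicClosure K))) = v.asIdeal ∧
    ∀ x : 𝓞 (AlgebraicClosure K), σ • x - x ^ Ideal.absNorm v.asIdeal ∈ Q

section groups

variable {ι : Type} {N : ι → ℕ} {m : ℕ}

/-- polynomials over `F` in the entries of a family of matrices `x i` of size `N i` and of a matrix `a`
of size `m` -/
abbrev Poly (F : Type) [Field F] {ι : Type} (N : ι → ℕ) (m : ℕ) : Type :=
  MvPolynomial ((Σ i, Fin (N i) × Fin (N i)) ⊕ (Fin m × Fin m)) F

/-- the coordinates of the point `(x, a)` -/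
def coordinates {F : Type} (x : ∀ i, Matrix (Fin (N i)) (Fin (N i)) F)
    (a : Matrix (Fin m) (Fin m) F) : (Σ i, Fin (N i) × Fin (N i)) ⊕ (Fin m × Fin m) → F :=
  Sum.elim (fun y => x y.1 y.2.1 y.2.2) fun y => a y.1 y.2

/-- the point `(x, a)` satisfies the equations `Pol` -/
def Satisfies {F : Type} [Field F] [Algebra ℚ F] (Pol : Set (Poly ℚ N m))
    (x : ∀ i, Matrix (Fin (N i)) (Fin (N i)) F) (a : Matrix (Fin m) (Fin m) F) : Prop :=
  ∀ f ∈ Pol, MvPolynomial.aeval (coordinates x a) f = 0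

/-- the point `(x, a)` belongs to the Zariski closure of the image of `ρ` and `α` over the algebraic
closure of `ℚ_ℓ` -/
def InZariskiClosure {ℓ : ℕ} [Fact ℓ.Prime] {Γ : Type} [Group Γ]
    (ρ : ∀ i, Γ →* Matrix (Fin (N i)) (Fin (N i)) ℚ_[ℓ]) (α : Γ →* Matrix (Fin m) (Fin m) ℚ)
    (x : ∀ i, Matrix (Fin (N i)) (Fin (N i)) (AlgebraicClosure ℚ_[ℓ]))
    (a : Matrix (Fin m) (Fin m) (AlgebraicClosure ℚ_[ℓ])) : Prop :=
  ∀ f : Poly (AlgebraicClosure ℚ_[ℓ]) N m,
    (∀ σ, MvPolynomial.eval (coordinates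
      (fun i => (ρ i σ).map (algebraMap ℚ_[ℓ] (AlgebraicClosure ℚ_[ℓ])))
      ((α σ).map (algebraMap ℚ (AlgebraicClosure ℚ_[ℓ])))) f = 0) →
    MvPolynomial.eval (coordinates x a) f = 0

/-- **The motivic Tate conjecture**: the Zariski closure of the image of the Galois group is the motivic
Galois group, which is given by the equations `Pol`. -/
def MotivicTateConjecture {ℓ : ℕ} [Fact ℓ.Prime] {Γ : Type} [Group Γ] (Pol : Set (Poly ℚ N m))
    (ρ : ∀ i, Γ →* Matrix (Fin (N i)) (Fin (N i)) ℚ_[ℓ]) (α : Γ →* Matrix (Fin m) (Fin m) ℚ) :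
    Prop :=
  ∀ (x : ∀ i, Matrix (Fin (N i)) (Fin (N i)) (AlgebraicClosure ℚ_[ℓ]))
    (a : Matrix (Fin m) (Fin m) (AlgebraicClosure ℚ_[ℓ])), (∀ i, (x i).det ≠ 0) → a.det ≠ 0 →
    (InZariskiClosure ρ α x a ↔ Satisfies Pol x a)

/-- the form `J`, base change to `F` -/
def baseChange {n : ℕ} (F : Type) [Field F] [Algebra ℚ F] (J : Matrix (Fin n) (Fin n) ℚ) :
    Matrix (Fin n) (Fin n) F :=
  J.map (algebraMap ℚ F)

/-- `J` is nondegenerate, and alternating of size at least one, or symmetric of size `5`, `7` or at least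
`8` -/
def IsAdmissible {n : ℕ} (J : Matrix (Fin n) (Fin n) ℚ) : Prop :=
  J.det ≠ 0 ∧ ((Jᵀ = -J ∧ 0 < n) ∨ (Jᵀ = J ∧ Odd n ∧ 5 ≤ n) ∨ (Jᵀ = J ∧ Even n ∧ 8 ≤ n))

/-- the condition on the prime number `ℓ₀` -/
def IsSuitable {n : ℕ} (J : Matrix (Fin n) (Fin n) ℚ) (ℓ₀ : ℕ) : Prop :=
  (Jᵀ = -J → ℓ₀ ≠ 2) ∧ (Jᵀ = J → Odd n → ¬ ℓ₀ ∣ n - 1) ∧
    (Jᵀ = J → Even n → ¬ ℓ₀ ∣ (n - 2) * (n - 4) ∧ Even (padicValRat ℓ₀ J.det))

end groups

variable {ι : Type} {N : ι → ℕ} {m : ℕ}

/-- The motives `M i` of rank `N i` and weight `w i` with the forms `J i`, the Artin motive `A` of rank `m`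
with the Galois action `α`, the motivic Galois group given by the equations `Pol`, and the Galois
actions `ρ i ℓ` on the `ℓ`-adic realizations of the `M i`; `κ ℓ` is the inverse of the cyclotomic
character. The Frobenius polynomials `P i v` are those of the fibre at the closed point `s`. -/
structure IsSystem {K : Type} [Field K] [NumberField K] {Γ : Type} [Group Γ] [TopologicalSpace Γ]
    (s : AbsoluteGaloisGroup K →* Γ) (S : Set (HeightOneSpectrum (𝓞 K))) (w : ι → ℕ)
    (P : ι → HeightOneSpectrum (𝓞 K) → Polynomial ℚ)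
    (J : ∀ i, Matrix (Fin (N i)) (Fin (N i)) ℚ) (α : Γ →* Matrix (Fin m) (Fin m) ℚ)
    (κ : ∀ (ℓ : ℕ) [Fact ℓ.Prime], Γ →* ℚ_[ℓ])
    (ρ : ∀ (i : ι) (ℓ : ℕ) [Fact ℓ.Prime], Γ →* Matrix (Fin (N i)) (Fin (N i)) ℚ_[ℓ])
    (Pol : Set (Poly ℚ N m)) : Prop where
  /-- the set of exceptional places is finite -/
  finite : S.Finite
  /-- the homomorphism given by the closed point is continuous -/
  point : Continuous s
  /-- the forms are nondegenerate and large enough -/
  form : ∀ i, IsAdmissible (J i)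
  /-- the motives with symmetric forms are twisted to weight zero -/
  weight : ∀ i, (J i)ᵀ = J i → w i = 0
  /-- `A` is an Artin motive -/
  artin : ∃ U : Subgroup Γ, IsOpen (U : Set Γ) ∧ ∀ σ ∈ U, α σ = 1
  /-- `κ` is the inverse of the cyclotomic character -/
  cyclotomic : ∀ (ℓ : ℕ) [Fact ℓ.Prime], Continuous (κ ℓ) ∧
    ∀ v ∉ S, (ℓ : 𝓞 K) ∉ v.asIdeal → ∀ σ : AbsoluteGaloisGroup K,
      IsFrobenius v σ → κ ℓ (s σ⁻¹) = (Ideal.absNorm v.asIdeal : ℚ_[ℓ])
  /-- the Galois actions are continuous -/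
  continuous : ∀ (i : ι) (ℓ : ℕ) [Fact ℓ.Prime], Continuous (ρ i ℓ)
  /-- the Galois group acts by similitudes of the forms -/
  similitude : ∀ (i : ι) (ℓ : ℕ) [Fact ℓ.Prime] (g : Γ),
    (ρ i ℓ g)ᵀ * baseChange ℚ_[ℓ] (J i) * ρ i ℓ g = κ ℓ g ^ w i • baseChange ℚ_[ℓ] (J i)
  /-- the characteristic polynomials of the geometric Frobenius elements do not depend on `ℓ` -/
  frobenius : ∀ (i : ι) (ℓ : ℕ) [Fact ℓ.Prime], ∀ v ∉ S, (ℓ : 𝓞 K) ∉ v.asIdeal →
    ∀ σ : AbsoluteGaloisGroup K, IsFrobenius v σ →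
      (ρ i ℓ (s σ⁻¹)).charpoly = (P i v).map (algebraMap ℚ ℚ_[ℓ])
  /-- the motivic Galois group acts by similitudes of the forms -/
  motivic_le : ∀ (x : ∀ i, Matrix (Fin (N i)) (Fin (N i)) ℂ) (a : Matrix (Fin m) (Fin m) ℂ),
    (∀ i, (x i).det ≠ 0) → a.det ≠ 0 → Satisfies Pol x a →
      ∃ t : ℂ, t ≠ 0 ∧ ∀ i, (x i)ᵀ * baseChange ℂ (J i) * x i = t ^ w i • baseChange ℂ (J i)
  /-- the motivic Galois group contains all families of isometries of determinant one -/
  motivic_ge : ∀ x : ∀ i, Matrix (Fin (N i)) (Fin (N i)) ℂ,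
    (∀ i, (x i)ᵀ * baseChange ℂ (J i) * x i = baseChange ℂ (J i)) →
    (∀ i, (x i).det = 1) → Satisfies Pol x 1
  /-- the Galois group acts through the motivic Galois group -/
  galois : ∀ (ℓ : ℕ) [Fact ℓ.Prime] (σ : Γ),
    Satisfies Pol (fun i => ρ i ℓ σ) ((α σ).map (algebraMap ℚ ℚ_[ℓ]))

/-- the endomorphisms of the representation `ρ` are the scalars -/
def HasScalarEndomorphisms {ℓ : ℕ} [Fact ℓ.Prime] {n : ℕ} {G : Type} [Group G]
    (ρ : G →* Matrix (Fin n) (Fin n) ℚ_[ℓ]) : Prop :=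
  ∀ A : Matrix (Fin n) (Fin n) ℚ_[ℓ], (∀ g, A * ρ g = ρ g * A) →
    ∃ c : ℚ_[ℓ], A = c • (1 : Matrix (Fin n) (Fin n) ℚ_[ℓ])

/-- **The motivic Tate conjecture at every prime number, from one prime number and the
endomorphisms over `ℚ`.** -/
theorem result [Fintype ι] [DecidableEq ι] {Γ : Type} [Group Γ]
    [TopologicalSpace Γ] [IsTopologicalGroup Γ] [CompactSpace Γ]
    (s : AbsoluteGaloisGroup ℚ →* Γ) (S : Set (HeightOneSpectrum (𝓞 ℚ))) (w : ι → ℕ)
    (P : ι → HeightOneSpectrum (𝓞 ℚ) → Polynomial ℚ)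
    (J : ∀ i, Matrix (Fin (N i)) (Fin (N i)) ℚ) (α : Γ →* Matrix (Fin m) (Fin m) ℚ)
    (κ : ∀ (ℓ : ℕ) [Fact ℓ.Prime], Γ →* ℚ_[ℓ])
    (ρ : ∀ (i : ι) (ℓ : ℕ) [Fact ℓ.Prime], Γ →* Matrix (Fin (N i)) (Fin (N i)) ℚ_[ℓ])
    (Pol : Set (Poly ℚ N m)) (hsys : IsSystem s S w P J α κ ρ Pol)
    -- the Frobenius eigenvalues
    (c : ι → ℕ) (hc : ∀ i, 0 < w i + 2 * c i)
    (hP : ∀ i, ∀ v ∉ S, ∀ z : ℂ, Polynomial.aeval z (P i v) = 0 →
      ‖z‖ ^ 2 = (Ideal.absNorm v.asIdeal : ℝ) ^ w i ∧
      IsIntegral ℤ ((Ideal.absNorm v.asIdeal : ℂ) ^ c i * z))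
    -- the conjecture at one prime number
    (ℓ₀ : ℕ) [Fact ℓ₀.Prime] (hℓ₀ : ∀ i, IsSuitable (J i) ℓ₀)
    (hone : MotivicTateConjecture Pol (fun i => (ρ i ℓ₀).comp s) (α.comp s))
    -- every prime number
    (ℓ : ℕ) [Fact ℓ.Prime] :
    MotivicTateConjecture Pol (fun i => (ρ i ℓ).comp s) (α.comp s) ↔
      ∀ i, HasScalarEndomorphisms ((ρ i ℓ).comp s) := by
  obtain ⟨kd, hfit, hal⟩ : ∃ kd : ι → Pool.Agent.R932.PO.Kind,
      (∀ i, Pool.Agent.R932.PO.Fits (kd i) (J i)) ∧
      ∀ i, Pool.Agent.R932.PO.Allows (kd i) (N i) ℓ₀ (Pool.Agent.R932.PO.JL J ℓ₀ i) := by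
    have h1 : ∀ i, ∃ k : Pool.Agent.R932.PO.Kind, Pool.Agent.R932.PO.Fits k (J i) ∧
        Pool.Agent.R932.PO.Allows k (N i) ℓ₀ (Pool.Agent.R932.PO.JL J ℓ₀ i) := by
      intro i
      obtain ⟨-, h2⟩ := hsys.form i
      obtain ⟨h3, h4, h5⟩ := hℓ₀ i
      rcases h2 with ⟨h2, h6⟩ | ⟨h2, h6, h7⟩ | ⟨h2, h6, h7⟩
      · exact ⟨.sym, ⟨h2, h6⟩, h3 h2⟩
      · exact ⟨.odd, ⟨h2, h6, h7⟩, h4 h2 h6⟩
      · obtain ⟨h8, h9⟩ := h5 h2 h6
        refine ⟨.even, ⟨h2, h6, h7⟩, h8, ?_⟩
        have h10 : (Pool.Agent.R932.PO.JL J ℓ₀ i).det = (((J i).det : ℚ) : ℚ_[ℓ₀]) := by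
          have h11 := (algebraMap ℚ ℚ_[ℓ₀]).map_det (J i)
          rw [RingHom.mapMatrix_apply] at h11
          rw [← eq_ratCast (algebraMap ℚ ℚ_[ℓ₀]), h11]
        rw [h10, Padic.valuation_ratCast]
        exact h9
    choose kd hkd using h1
    exact ⟨kd, fun i => (hkd i).1, fun i => (hkd i).2⟩
  have H : Pool.Agent.U273.AI.Setup s S kd w P J α κ ρ Pol := {
    hS := hsys.finite
    hs := hsys.point
    hfit := hfit
    hdet := fun i => (hsys.form i).1
    hw := hsys.weight
    hα := hsys.artin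
    hκ := fun ℓ _ => (hsys.cyclotomic ℓ).2
    hρc := hsys.continuous
    hmult := fun i ℓ _ g => hsys.similitude i ℓ g
    hfrob := fun i ℓ _ => hsys.frobenius i ℓ
    hpol := hsys.motivic_le
    hbig := hsys.motivic_ge
    hgal := fun ℓ _ σ => hsys.galois ℓ σ }
  exact (H.main_Q (Module.finrank_self ℚ) (fun ℓ _ => (hsys.cyclotomic ℓ).1) c hc hP ℓ₀ hal hone
    ℓ).2

end

end Pool.Agent.Results.MP_bbcdf5_ag.EndomorphismsOverQ
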