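import Mathlib
import Pool.Agent.U273.AI.Art

/-!
# The motivic Tate conjecture from one prime number

Let `k` be a finitely generated field of characteristic zero, `M = ⊕ M_i ⊕ A` a motive over `k` (in the
category of André, or for absolute Hodge cycles), where `A` is an Artin motive and the `M_i` are
motives of rank `N_i` and weight `w_i` with a form `J_i`, alternating or symmetric (in the symmetric case
twisted to weight zero, of rank `5`, `7` or at least `8`).  Let `𝒢 ⊂ ∏ GL(M_i) × GL(A)` be the motivic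
Galois group of `M`, given by rational equations `Pol`, and suppose that it is as big as possible up to
finite groups: the group acts on the `M_i` by similitudes and contains all families of isometries of
determinant one (so its identity component is the group of the similitudes of determinant one
for the symmetric forms with multipliers `t ^ w_i`).  The groups of components and the action on `A`
are arbitrary.

`Γ` is the Galois group of `k` (or the fundamental group of a model `U`), and `s : G_K → Γ` the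
homomorphism given by a closed point of `U` with residue field `K`, a number field; so `s` describes the
fibre `M_s` of the motive at the closed point (if `k` is a number field then `K = k` and `s` is the
identity).  The Frobenius polynomials of the fibre do not depend on `ℓ`.

**Theorem.**  Suppose that at ONE suitable prime number `ℓ₀` the Zariski closure of the image of `G_K` is
the whole motivic Galois group `𝒢`.  Then

(1) the motivic Tate conjecture holds for `M_s` and for `M` (the Zariski closure of the image of `G_K` or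
`Γ` is `𝒢`, including the components) at all prime numbers outside a set of natural density zero;

(2) for EVERY prime number `ℓ` it holds for `M_s` at `ℓ` if and only if the `ℓ`-adic realizations of
all `M_i` are absolutely irreducible representations of `G_K`; and then it holds for `M` at `ℓ`.

A prime number `ℓ₀` is suitable if it is odd, prime to `N_i - 1` for the symmetric forms of odd rank,
and, for the symmetric forms of even rank, prime to `(N_i - 2) (N_i - 4)` with an even exponent in the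
discriminant.

In (2) nothing is assumed about the relations between the representations on different `M_i`, about
their restrictions to finite extensions of `K`, or about the components.

Idea of the proof.  From the conjecture at `ℓ₀` one gets the joint Lie algebra `∏ sp(M_i) × ∏ so(M_j)` of the
image at `ℓ₀` (library `Pool.Agent.R932.GR`).  If the representation on `M_i` at `ℓ` is absolutely
irreducible, then commutants of open normal subgroups `Δ` are diagonal in an eigenbasis of a power of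
a Frobenius element with different eigenvalues, and the Galois group permutes the blocks
transitively; if there are several blocks, some element `g` moves all of them, the trace on `M_i` vanishes
on the coset `g Δ`, at `ℓ` and by Chebotarev's theorem also at `ℓ₀`; this is impossible, since the Lie
algebra at `ℓ₀` generates the algebra of all matrices.  So the commutants of all open subgroups are
scalars, and the library `Pool.Agent.R932.PO` (several systems) gives the joint Lie algebra at
`ℓ`.  The components are controlled by determinants of Frobenius elements and by `A` (library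
`Pool.Agent.R932.GR`).  (1) is the theorem on several systems in the same library.
-/

set_option autoImplicit false

namespace Pool.Agent.Results.MP_bbcdf5_ag.FromOnePrime

open Matrix Filter Topology NumberField IsDedekindDomain

noncomputable section

/-- the absolute Galois group of `K`, with its profinite (Krull) topology -/
abbrev AbsoluteGaloisGroup (K : Type) [Field K] : Type := Gal(AlgebraicClosure K/K)

/-- `σ` is an (arithmetic) Frobenius element at the prime `v` of the number field `K`: for some prime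
`Q` of the algebraic closure above `v` it acts on the residue field as `x ↦ x ^ N(v)` -/
def IsFrobenius {K : Type} [Field K] [NumberField K] (v : HeightOneSpectrum (𝓞 K))
    (σ : AbsoluteGaloisGroup K) : Prop :=
  ∃ Q : Ideal (𝓞 (AlgebraicClosure K)), Q.IsMaximal ∧
    Q.comap (algebraMap (𝓞 K) (𝓞 (AlgebraicClosure K))) = v.asIdeal ∧
    ∀ x : 𝓞 (AlgebraicClosure K), σ • x - x ^ Ideal.absNorm v.asIdeal ∈ Q

section groups

variable {ι : Type} {N : ι → ℕ} {m : ℕ}

/-- polynomials over `F` in the entries of a family of matrices `x i` of size `N i` and of a matrix `a`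
of size `m` -/
abbrev Poly (F : Type) [Field F] {ι : Type} (N : ι → ℕ) (m : ℕ) : Type :=
  MvPolynomial ((Σ i, Fin (N i) × Fin (N i)) ⊕ (Fin m × Fin m)) F

/-- the coordinates of the point `(x, a)` -/
def coordinates {F : Type} (x : ∀ i, Matrix (Fin (N i)) (Fin (N i)) F)
    (a : Matrix (Fin m) (Fin m) F) : (Σ i, Fin (N i) × Fin (N i)) ⊕ (Fin m × Fin m) → F :=
  Sum.elim (fun y => x y.1 y.2.1 y.2.2) fun y => a y.1 y.2

/-- the point `(x, a)` satisfies the equations `Pol` -/
def Satisfies {F : Type} [Field F] [Algebra ℚ F] (Pol : Set (Poly ℚ N m))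
    (x : ∀ i, Matrix (Fin (N i)) (Fin (N i)) F) (a : Matrix (Fin m) (Fin m) F) : Prop :=
  ∀ f ∈ Pol, MvPolynomial.aeval (coordinates x a) f = 0

/-- the point `(x, a)` belongs to the Zariski closure of the image of `ρ` and `α` over the algebraic
closure of `ℚ_ℓ` -/
def InZariskiClosure {ℓ : ℕ} [Fact ℓ.Prime] {Γ : Type} [Group Γ]
    (ρ : ∀ i, Γ →* Matrix (Fin (N i)) (Fin (N i)) ℚ_[ℓ]) (α : Γ →* Matrix (Fin m) (Fin m) ℚ)
    (x : ∀ i, Matrix (Fin (N i)) (Fin (N i)) (AlgebraicClosure ℚ_[ℓ]))
    (a : Matrix (Fin m) (Fin m) (AlgebraicClosure ℚ_[ℓ])) : Prop :=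
  ∀ f : Poly (AlgebraicClosure ℚ_[ℓ]) N m,
    (∀ σ, MvPolynomial.eval (coordinates
      (fun i => (ρ i σ).map (algebraMap ℚ_[ℓ] (AlgebraicClosure ℚ_[ℓ])))
      ((α σ).map (algebraMap ℚ (AlgebraicClosure ℚ_[ℓ])))) f = 0) →
    MvPolynomial.eval (coordinates x a) f = 0

/-- **The motivic Tate conjecture**: the Zariski closure of the image of the Galois group is the motivic
Galois group, which is given by the equations `Pol`. -/
def MotivicTateConjecture {ℓ : ℕ} [Fact ℓ.Prime] {Γ : Type} [Group Γ] (Pol : Set (Poly ℚ N m))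
    (ρ : ∀ i, Γ →* Matrix (Fin (N i)) (Fin (N i)) ℚ_[ℓ]) (α : Γ →* Matrix (Fin m) (Fin m) ℚ) :
    Prop :=
  ∀ (x : ∀ i, Matrix (Fin (N i)) (Fin (N i)) (AlgebraicClosure ℚ_[ℓ]))
    (a : Matrix (Fin m) (Fin m) (AlgebraicClosure ℚ_[ℓ])), (∀ i, (x i).det ≠ 0) → a.det ≠ 0 →
    (InZariskiClosure ρ α x a ↔ Satisfies Pol x a)

/-- the form `J`, base change to `F` -/
def baseChange {n : ℕ} (F : Type) [Field F] [Algebra ℚ F] (J : Matrix (Fin n) (Fin n) ℚ) :
    Matrix (Fin n) (Fin n) F :=
  J.map (algebraMap ℚ F)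

/-- `J` is nondegenerate, and alternating of size at least one, or symmetric of size `5`, `7` or at least
`8` -/
def IsAdmissible {n : ℕ} (J : Matrix (Fin n) (Fin n) ℚ) : Prop :=
  J.det ≠ 0 ∧ ((Jᵀ = -J ∧ 0 < n) ∨ (Jᵀ = J ∧ Odd n ∧ 5 ≤ n) ∨ (Jᵀ = J ∧ Even n ∧ 8 ≤ n))

/-- the condition on the prime number `ℓ₀` -/
def IsSuitable {n : ℕ} (J : Matrix (Fin n) (Fin n) ℚ) (ℓ₀ : ℕ) : Prop :=
  (Jᵀ = -J → ℓ₀ ≠ 2) ∧ (Jᵀ = J → Odd n → ¬ ℓ₀ ∣ n - 1) ∧
    (Jᵀ = J → Even n → ¬ ℓ₀ ∣ (n - 2) * (n - 4) ∧ Even (padicValRat ℓ₀ J.det))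

end groups

variable {ι : Type} {N : ι → ℕ} {m : ℕ}

/-- The motives `M i` of rank `N i` and weight `w i` with the forms `J i`, the Artin motive `A` of rank `m`
with the Galois action `α`, the motivic Galois group given by the equations `Pol`, and the Galois
actions `ρ i ℓ` on the `ℓ`-adic realizations of the `M i`; `κ ℓ` is the inverse of the cyclotomic
character. The Frobenius polynomials `P i v` are those of the fibre at the closed point `s`. -/
structure IsSystem {K : Type} [Field K] [NumberField K] {Γ : Type} [Group Γ] [TopologicalSpace Γ]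
    (s : AbsoluteGaloisGroup K →* Γ) (S : Set (HeightOneSpectrum (𝓞 K))) (w : ι → ℕ)
    (P : ι → HeightOneSpectrum (𝓞 K) → Polynomial ℚ)
    (J : ∀ i, Matrix (Fin (N i)) (Fin (N i)) ℚ) (α : Γ →* Matrix (Fin m) (Fin m) ℚ)
    (κ : ∀ (ℓ : ℕ) [Fact ℓ.Prime], Γ →* ℚ_[ℓ])
    (ρ : ∀ (i : ι) (ℓ : ℕ) [Fact ℓ.Prime], Γ →* Matrix (Fin (N i)) (Fin (N i)) ℚ_[ℓ])
    (Pol : Set (Poly ℚ N m)) : Prop where
  /-- the set of exceptional places is finite -/
  finite : S.Finite
  /-- the homomorphism given by the closed point is continuous -/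
  point : Continuous s
  /-- the forms are nondegenerate and large enough -/
  form : ∀ i, IsAdmissible (J i)
  /-- the motives with symmetric forms are twisted to weight zero -/
  weight : ∀ i, (J i)ᵀ = J i → w i = 0
  /-- `A` is an Artin motive -/
  artin : ∃ U : Subgroup Γ, IsOpen (U : Set Γ) ∧ ∀ σ ∈ U, α σ = 1
  /-- `κ` is the inverse of the cyclotomic character -/
  cyclotomic : ∀ (ℓ : ℕ) [Fact ℓ.Prime], Continuous (κ ℓ) ∧
    ∀ v ∉ S, (ℓ : 𝓞 K) ∉ v.asIdeal → ∀ σ : AbsoluteGaloisGroup K,
      IsFrobenius v σ → κ ℓ (s σ⁻¹) = (Ideal.absNorm v.asIdeal : ℚ_[ℓ])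
  /-- the Galois actions are continuous -/
  continuous : ∀ (i : ι) (ℓ : ℕ) [Fact ℓ.Prime], Continuous (ρ i ℓ)
  /-- the Galois group acts by similitudes of the forms -/
  similitude : ∀ (i : ι) (ℓ : ℕ) [Fact ℓ.Prime] (g : Γ),
    (ρ i ℓ g)ᵀ * baseChange ℚ_[ℓ] (J i) * ρ i ℓ g = κ ℓ g ^ w i • baseChange ℚ_[ℓ] (J i)
  /-- the characteristic polynomials of the geometric Frobenius elements do not depend on `ℓ` -/
  frobenius : ∀ (i : ι) (ℓ : ℕ) [Fact ℓ.Prime], ∀ v ∉ S, (ℓ : 𝓞 K) ∉ v.asIdeal →
    ∀ σ : AbsoluteGaloisGroup K, IsFrobenius v σ →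
      (ρ i ℓ (s σ⁻¹)).charpoly = (P i v).map (algebraMap ℚ ℚ_[ℓ])
  /-- the motivic Galois group acts by similitudes of the forms -/
  motivic_le : ∀ (x : ∀ i, Matrix (Fin (N i)) (Fin (N i)) ℂ) (a : Matrix (Fin m) (Fin m) ℂ),
    (∀ i, (x i).det ≠ 0) → a.det ≠ 0 → Satisfies Pol x a →
      ∃ t : ℂ, t ≠ 0 ∧ ∀ i, (x i)ᵀ * baseChange ℂ (J i) * x i = t ^ w i • baseChange ℂ (J i)
  /-- the motivic Galois group contains all families of isometries of determinant one -/
  motivic_ge : ∀ x : ∀ i, Matrix (Fin (N i)) (Fin (N i)) ℂ,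
    (∀ i, (x i)ᵀ * baseChange ℂ (J i) * x i = baseChange ℂ (J i)) →
    (∀ i, (x i).det = 1) → Satisfies Pol x 1
  /-- the Galois group acts through the motivic Galois group -/
  galois : ∀ (ℓ : ℕ) [Fact ℓ.Prime] (σ : Γ),
    Satisfies Pol (fun i => ρ i ℓ σ) ((α σ).map (algebraMap ℚ ℚ_[ℓ]))

/-- the representation `ρ` is absolutely irreducible: there is no proper nonzero stable subspace over the
algebraic closure -/
def IsAbsolutelyIrreducible {ℓ : ℕ} [Fact ℓ.Prime] {n : ℕ} {G : Type} [Group G]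
    (ρ : G →* Matrix (Fin n) (Fin n) ℚ_[ℓ]) : Prop :=
  ∀ W : Submodule (AlgebraicClosure ℚ_[ℓ]) (Fin n → AlgebraicClosure ℚ_[ℓ]),
    (∀ g, ∀ w ∈ W, (ρ g).map (algebraMap ℚ_[ℓ] (AlgebraicClosure ℚ_[ℓ])) *ᵥ w ∈ W) →
      W = ⊥ ∨ W = ⊤

/-- the set `A` of prime numbers has natural density zero -/
def HasDensityZero (A : Set ℕ) : Prop :=
  Tendsto (fun n : ℕ => (Nat.card {ℓ : ℕ // ℓ ≤ n ∧ ℓ ∈ A} : ℝ) / (Nat.primeCounting n : ℝ))
    atTop (𝓝 0)

/-- **The motivic Tate conjecture from one prime number.** -/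
theorem result [Fintype ι] [DecidableEq ι] {K : Type} [Field K] [NumberField K] {Γ : Type} [Group Γ]
    [TopologicalSpace Γ] [IsTopologicalGroup Γ] [CompactSpace Γ]
    (s : AbsoluteGaloisGroup K →* Γ) (S : Set (HeightOneSpectrum (𝓞 K))) (w : ι → ℕ)
    (P : ι → HeightOneSpectrum (𝓞 K) → Polynomial ℚ)
    (J : ∀ i, Matrix (Fin (N i)) (Fin (N i)) ℚ) (α : Γ →* Matrix (Fin m) (Fin m) ℚ)
    (κ : ∀ (ℓ : ℕ) [Fact ℓ.Prime], Γ →* ℚ_[ℓ])
    (ρ : ∀ (i : ι) (ℓ : ℕ) [Fact ℓ.Prime], Γ →* Matrix (Fin (N i)) (Fin (N i)) ℚ_[ℓ])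
    (Pol : Set (Poly ℚ N m)) (hsys : IsSystem s S w P J α κ ρ Pol)
    -- the conjecture at one prime number
    (ℓ₀ : ℕ) [Fact ℓ₀.Prime] (hℓ₀ : ∀ i, IsSuitable (J i) ℓ₀)
    (hone : MotivicTateConjecture Pol (fun i => (ρ i ℓ₀).comp s) (α.comp s)) :
    -- 100 percent of the prime numbers
    HasDensityZero {ℓ | ∃ _ : Fact ℓ.Prime,
      ¬ (MotivicTateConjecture Pol (fun i => (ρ i ℓ).comp s) (α.comp s) ∧
        MotivicTateConjecture Pol (fun i => ρ i ℓ) α)} ∧
    -- every prime number
    ∀ (ℓ : ℕ) [Fact ℓ.Prime],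
      (MotivicTateConjecture Pol (fun i => (ρ i ℓ).comp s) (α.comp s) ↔
        ∀ i, IsAbsolutelyIrreducible ((ρ i ℓ).comp s)) ∧
      (MotivicTateConjecture Pol (fun i => (ρ i ℓ).comp s) (α.comp s) →
        MotivicTateConjecture Pol (fun i => ρ i ℓ) α) := by
  obtain ⟨kd, hfit, hal⟩ : ∃ kd : ι → Pool.Agent.R932.PO.Kind,
      (∀ i, Pool.Agent.R932.PO.Fits (kd i) (J i)) ∧
      ∀ i, Pool.Agent.R932.PO.Allows (kd i) (N i) ℓ₀ (Pool.Agent.R932.PO.JL J ℓ₀ i) := by
    have h1 : ∀ i, ∃ k : Pool.Agent.R932.PO.Kind, Pool.Agent.R932.PO.Fits k (J i) ∧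
        Pool.Agent.R932.PO.Allows k (N i) ℓ₀ (Pool.Agent.R932.PO.JL J ℓ₀ i) := by
      intro i
      obtain ⟨-, h2⟩ := hsys.form i
      obtain ⟨h3, h4, h5⟩ := hℓ₀ i
      rcases h2 with ⟨h2, h6⟩ | ⟨h2, h6, h7⟩ | ⟨h2, h6, h7⟩
      · exact ⟨.sym, ⟨h2, h6⟩, h3 h2⟩
      · exact ⟨.odd, ⟨h2, h6, h7⟩, h4 h2 h6⟩
      · obtain ⟨h8, h9⟩ := h5 h2 h6
        refine ⟨.even, ⟨h2, h6, h7⟩, h8, ?_⟩
        have h10 : (Pool.Agent.R932.PO.JL J ℓ₀ i).det = (((J i).det : ℚ) : ℚ_[ℓ₀]) := by
          have h11 := (algebraMap ℚ ℚ_[ℓ₀]).map_det (J i)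
          rw [RingHom.mapMatrix_apply] at h11
          rw [← eq_ratCast (algebraMap ℚ ℚ_[ℓ₀]), h11]
        rw [h10, Padic.valuation_ratCast]
        exact h9
    choose kd hkd using h1
    exact ⟨kd, fun i => (hkd i).1, fun i => (hkd i).2⟩
  have H : Pool.Agent.U273.AI.Setup s S kd w P J α κ ρ Pol := {
    hS := hsys.finite
    hs := hsys.point
    hfit := hfit
    hdet := fun i => (hsys.form i).1
    hw := hsys.weight
    hα := hsys.artin
    hκ := fun ℓ _ => (hsys.cyclotomic ℓ).2
    hρc := hsys.continuous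
    hmult := fun i ℓ _ g => hsys.similitude i ℓ g
    hfrob := fun i ℓ _ => hsys.frobenius i ℓ
    hpol := hsys.motivic_le
    hbig := hsys.motivic_ge
    hgal := fun ℓ _ σ => hsys.galois ℓ σ }
  exact H.main ℓ₀ hal hone

end

end Pool.Agent.Results.MP_bbcdf5_ag.FromOnePrime
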