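import Pool.Agent.U483.KP.Tate

/-!
# The motivic Tate conjecture and the Grothendieck ring of varieties

Let `k` be a finitely generated field of characteristic zero with an embedding in `ℂ`, `G` its absolute Galois
group, `K` an algebraic closure of `ℚ_ℓ` and `𝓜` the semisimple tensor category of the pure motives over `k` for
absolute Hodge cycles (Deligne), with the `ℓ`-adic realization `A ↦ R.V A` and the Tate motives `T.tw m`. For a
separated scheme `X` of finite type over `k` let `H.h i w X = gr^W_w h^i_c(X)` (Deligne, Jannsen). The structures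
`CompactCoh`, `IsMultiplicative`, `Realization` and `Twists` list the known properties which are used.

For a motive `M` the equality of the `ℓ`-adic monodromy group and of the motivic Galois group (reductive) means that
for all motives `A` in the tensor category generated by `M` (all motives are polarizable, so that the dual of `M` is
in the category generated by `M` and the Tate motives) the representation `R.V A` is semisimple and all its Tate
classes are linear combinations of classes of morphisms of motives (`MotivicTate M`; `Good A` is this property for the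
single motive `A`).

* For a smooth projective `X` all `h^i(X)` are good if and only if the class of `X` in the Grothendieck group
  `K_0(Var_k)` of varieties is in the subgroup generated by the classes of the (arbitrary, open or singular) schemes
  `Y` all of whose `gr^W_w h^i_c(Y)` are good.
* Let `𝒜` be a class of good motives which is closed under direct factors, direct sums and tensor products and contains
  the Tate motives (for example the tensor category generated by the Artin motives and the elliptic curves over `k`, or
  by one motive for which the conjecture is known). If the pieces of the schemes of dimension at most `D` (`D = 0`: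
  Artin motives) and of the schemes of a class `B` (elliptic curves, ...) are in `𝒜`, then this is true for all
  schemes which can be built (`Built`) from them and for all smooth projective `X` whose classes are in the subgroup
  generated by these; so the motivic Tate conjecture holds for `h^0(X) ⊕ ... ⊕ h^(n - 1)(X)` for all `n`, for these `X`.
-/

set_option autoImplicit false

open CategoryTheory CategoryTheory.Limits AlgebraicGeometry Pool.Agent.Y116.UV Pool.Agent.U483.KM
  Pool.Agent.U483.GU Pool.Agent.U483.KP Pool.Agent.U282.ZL

namespace Pool.Agent.Results.MP_bbcdf5_ag.GrothendieckRing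

universe w x

attribute [local instance] Abelian.hasFiniteBiproducts

/-- All `gr^W_w h^i_c(Y)` are good: semisimple, and all Tate classes are motivic. -/
def AllGood {k : Type} [Field k] {𝓜 : Type w} [Category.{x} 𝓜] [Abelian 𝓜] [Linear ℚ 𝓜]
    [MonoidalCategory 𝓜] (H : CompactCoh.{w, x} k 𝓜) {G K : Type} [Group G] [Field K]
    {R : Realization.{w, x} 𝓜 G K} (T : Twists R) (Y : Sch k) : Prop :=
  ∀ i w : ℤ, T.Good (H.h i w Y)

theorem result (k : Type) [Field k] (𝓜 : Type w) [Category.{x} 𝓜] [Abelian 𝓜] [Linear ℚ 𝓜]
    [MonoidalCategory 𝓜] (H : CompactCoh.{w, x} k 𝓜) (L : 𝓜) (hH : IsMultiplicative H L)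
    (G K : Type) [Group G] [Field K] (R : Realization.{w, x} 𝓜 G K) (T : Twists R) :
    -- Tate classes and semisimplicity in terms of the class in `K_0(Var_k)`
    (∀ X : Var k, SmoothProjective X.1 → ((∀ i : ℤ, T.Good (H.h i i X.1)) ↔
      cls X ∈ AddSubgroup.closure {c | ∃ Y : Var k, AllGood H T Y.1 ∧ c = cls Y})) ∧
    (∀ X X' : Var k, SmoothProjective X.1 → SmoothProjective X'.1 → cls X = cls X' →
      ((∀ i : ℤ, T.Good (H.h i i X.1)) ↔ ∀ i : ℤ, T.Good (H.h i i X'.1))) ∧
    -- the motivic Tate conjecture for the varieties built from varieties with motives in `𝒜`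
    (∀ (𝒜 : 𝓜 → Prop), IsTensorThick 𝒜 → 𝒜 L → (∀ m, 𝒜 (T.tw m)) → (∀ A, 𝒜 A → T.Good A) →
      ∀ (B : Sch k → Prop), (∀ Y, FT True Y → B Y → H.In 𝒜 Y) → ∀ D : ℕ,
      (∀ Y : Sch k, FT True Y → topologicalKrullDim Y.left ≤ D → H.In 𝒜 Y) →
      (∀ Y, Built k B D Y → H.In 𝒜 Y ∧ AllGood H T Y) ∧
        ∀ X : Var k, SmoothProjective X.1 →
          cls X ∈ AddSubgroup.closure {c | ∃ Y : Var k, Built k B D Y.1 ∧ c = cls Y} →
          ∀ n : ℕ, T.MotivicTate (⨁ fun i : Fin n => H.h i i X.1)) := by
  have hT := thick_good T
  have key : ∀ X : Var k, SmoothProjective X.1 → ((∀ i : ℤ, T.Good (H.h i i X.1)) ↔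
      cls X ∈ AddSubgroup.closure {c | ∃ Y : Var k, AllGood H T Y.1 ∧ c = cls Y}) := by
    intro X hX
    refine Iff.trans ⟨fun h i w => ?_, fun h i => h i i⟩ (in_iff_mem H hT hX)
    by_cases hiw : i = w
    · subst hiw
      exact h i
    · exact hT.zero _ (H.pure X.1 hX i w hiw)
  refine ⟨key, fun X X' hX hX' h => ?_, fun 𝒜 h𝒜 hL htw hA B hB D hD => ⟨fun Y hY => ?_,
    fun X hX h n A hgen => ?_⟩⟩
  · rw [key X hX, key X' hX', h]
  · have h1 := (in_built hH h𝒜 hL hB hD hY).2
    exact ⟨h1, fun i w => hA _ (h1 i w)⟩
  · exact hA _ (hgen 𝒜 h𝒜 (biproduct_in h𝒜.toIsThick _ fun i =>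
      in_of_built hH h𝒜 hL hB hD hX h i i) htw)

end Pool.Agent.Results.MP_bbcdf5_ag.GrothendieckRing
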